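import Pool.Agent.HamChrom.D1.Fam

set_option autoImplicit false

namespace Pool.Agent.HamChrom.D1

open Pool.Agent.HamChrom

def certA0 : Cert := ⟨[1], 2 ^ 61, [
  ((.nu 0), [⟨0, 16, [583008256, 1737490688, 1714422016, 548405504, 1718016]⟩, ⟨0, 19, [0, 256, 256, 256, 13252352]⟩]),
  ((.nu 1), [⟨2, 0, [17813498880, 57175295488, 63857465600, 27443050752, 2947380224]⟩, ⟨2, 1, [10990883840, 54328703488, 97828235008, 76633884416, 22143470592]⟩]),
  ((.nu 16), [⟨1, 0, [18695702784, 76717822720, 118010669824, 80650673920, 20662125056]⟩, ⟨1, 9, [343643136, 9081600512, 25313306368, 24756373248, 8181025792]⟩, ⟨1, 65, [26512865024, 92499668224, 117617874176, 63788212480, 12157140480]⟩, ⟨1, 72, [1718016, 6876416, 10310912, 6873344, 1719808]⟩, ⟨1, 73, [1717504, 6871296, 10306560, 6871040, 1717760]⟩]),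
  ((.nu 2), [⟨0, 1, [756575744, 256, 256, 256]⟩, ⟨0, 17, [23720244480, 78675882240, 88373980160, 38627612672, 4439440128]⟩, ⟨3, 0, [3861994752, 31396809984, 71811207680, 64879945216, 20603555328]⟩]),
  ((.nu 3), [⟨0, 0, [7466530560, 27152935936, 36654306304, 21715935232, 4734781184]⟩, ⟨0, 1, [443926784, 5250159360, 13092236032, 12209692416, 3923689984]⟩]),
  ((.nu 4), [⟨0, 0, [20463077632, 82113008384, 123427711744, 82368700160, 20590920192]⟩, ⟨0, 1, [9249605888, 31775058688, 35043300096, 14786158336, 1498482432]⟩, ⟨0, 3, [12788170752, 52676394752, 81449828096, 56023154432, 14448298240]⟩, ⟨0, 16, [13414315776, 50530806784, 71239373824, 44543598592, 10407462656]⟩, ⟨0, 17, [1718016, 1907954688, 10125470720, 11507638272, 4044980736]⟩]),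
  ((.nu 5), [⟨0, 0, [6522142720, 25192038656, 36443259136, 23398973696, 5638862592]⟩]),
  ((.nu 6), [⟨0, 1, [7006584832, 26700415488, 38061736448, 24048566784, 5707165184]⟩])]⟩

theorem checkA0 : Checked par fams famA true certA0 :=
  ⟨by decide +kernel, by decide +kernel, by decide +kernel⟩

end Pool.Agent.HamChrom.D1
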