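import Pool.Agent.HamChrom.D1.Fam

set_option autoImplicit false

namespace Pool.Agent.HamChrom.D1

open Pool.Agent.HamChrom

def certH0 : Cert := ⟨[1], 2 ^ 59, [
  ((.nu 0), [⟨0, 1, [546381056, 2439784192, 2509205504, 1508044544, 241346816]⟩, ⟨0, 3, [465559808, 1792833792, 2178296576, 1117489408, 215800576]⟩, ⟨0, 17, [937147136, 3944425984, 5671939584, 4056586240, 1111265280]⟩, ⟨0, 19, [716743424, 3039068160, 4639943936, 3297519872, 972939776]⟩, ⟨2, 0, [5332007680, 18224552960, 27799343872, 18673134592, 5000225792]⟩, ⟨2, 1, [4009690880, 16341713920, 21787972096, 12268870656, 2280593408]⟩]),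
  ((.nu 16), [⟨1, 0, [14055491584, 53489902336, 75985761536, 47723782912, 11172431616]⟩, ⟨1, 1, [13488095232, 49408770048, 66825437184, 39376945152, 8472182784]⟩, ⟨1, 8, [821531904, 3830839552, 7066010880, 5535151360, 1131346176]⟩, ⟨1, 64, [1026374144, 2790145280, 4158124032, 2150688000, 457897216]⟩, ⟨1, 72, [3423955200, 18809136896, 33586058752, 26731627264, 8176290560]⟩]),
  ((.nu 2), [⟨0, 0, [1718272, 6872320, 10308352, 6872320, 1718528]⟩, ⟨0, 1, [2027441920, 8496556544, 13820919808, 9641007104, 2798605056]⟩, ⟨0, 17, [626769408, 2791518976, 4765900800, 3610472960, 1134641664]⟩, ⟨3, 0, [11139403008, 46942291712, 68872724992, 45056112384, 10752385792]⟩, ⟨3, 1, [8210845696, 25232577792, 31617783808, 16410812672, 2701548800]⟩]),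
  ((.nu 4), [⟨0, 0, [16951658496, 67561267968, 100973851904, 67070534400, 16706291456]⟩, ⟨0, 1, [11163685120, 37776371712, 48393743360, 24492726272, 4448837376]⟩, ⟨0, 2, [488118016, 1736281344, 2334358016, 1365206016, 308171776]⟩, ⟨0, 3, [5130541824, 19110238208, 25309752832, 15840881664, 3290656256]⟩, ⟨0, 16, [338211072, 1302097152, 1803332864, 1161489664, 260939776]⟩, ⟨0, 17, [858545664, 3766447872, 5711549440, 4649193728, 1101037824]⟩, ⟨0, 18, [302195968, 1190280448, 1737808640, 1053799168, 263277824]⟩, ⟨0, 19, [731603712, 3494036736, 6111084544, 4099048192, 1238267904]⟩]),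
  ((.nu 6), [⟨0, 1, [2137091584, 12651757824, 23578045440, 20007714816, 5888773120]⟩, ⟨0, 16, [274090752, 1048356352, 1539852544, 1029626112, 236779520]⟩, ⟨0, 17, [607954176, 2976940800, 6083192320, 4475480064, 1556475392]⟩])]⟩

theorem checkH0 : Checked par fams famH true certH0 :=
  ⟨by decide +kernel, by decide +kernel, by decide +kernel⟩

end Pool.Agent.HamChrom.D1
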