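import Pool.Agent.HamChrom.D1.Fam

set_option autoImplicit false

namespace Pool.Agent.HamChrom.D1

open Pool.Agent.HamChrom

def certP0 : Cert := ⟨[1], 2 ^ 60, [
  ((.nu 0), [⟨0, 0, [18373148672, 71141163008, 103184596992, 66438299648, 16021716992]⟩]),
  ((.nu 1), [⟨0, 2, [22337435136, 82087808768, 112772643072, 68631560960, 15609312256]⟩, ⟨2, 0, [51138382336, 202409734400, 299865081600, 197054528768, 48460778496]⟩]),
  ((.nu 16), [⟨1, 0, [51138382336, 202409734400, 299865081600, 197054528768, 48460778496]⟩, ⟨1, 8, [1717760, 6852352, 10287360, 6849280, 1717248]⟩]),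
  ((.nu 4), [⟨0, 0, [36731879424, 141877444608, 205658800128, 132612784128, 32099549184]⟩, ⟨0, 2, [18387566592, 71546044416, 103894990848, 66702114816, 15965601792]⟩]),
  ((.nu 5), [⟨0, 0, [18371051520, 71131201536, 103167295488, 66425192448, 16018046976]⟩])]⟩

theorem checkP0 : Checked par fams famP true certP0 :=
  ⟨by decide +kernel, by decide +kernel, by decide +kernel⟩

end Pool.Agent.HamChrom.D1
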