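import Pool.Agent.HamChrom.D1.Fam

set_option autoImplicit false

namespace Pool.Agent.HamChrom.D1

open Pool.Agent.HamChrom

def certS0 : Cert := ⟨[1, 1], 2 ^ 41, [
  ((.nu 0), [⟨2, 0, [262144, 1048576, 1572864, 1048576, 262144]⟩]),
  ((.nu 16), [⟨1, 0, [262144, 1048576, 1572864, 1048576, 262144]⟩, ⟨1, 8, [32768, 155648, 270336, 204800, 57344]⟩]),
  ((.nu 4), [⟨0, 0, [262144, 1048576, 1572864, 1048576, 262144]⟩, ⟨0, 2, [32768, 155648, 270336, 204800, 57344]⟩])]⟩

theorem checkS0 : Checked par fams (FF par) true certS0 :=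
  ⟨by decide +kernel, by decide +kernel, by decide +kernel⟩

end Pool.Agent.HamChrom.D1
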